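import Pool.Agent.helper47.RA.Model

set_option autoImplicit false

/-!
# Definitions for the average of the 5-torsion of quadratic class groups (algebraic part)
-/

namespace Pool.Agent.helper3.FT

open NumberField Pool.Agent.helper47.RA

/-- data on a quadratic field of either sign; `v₁, v₂` are the two archimedean absolute values -/
structure QF (K : Type) [Field K] [NumberField K] where
  D : ℤ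
  hD : IsFund D
  ω : 𝓞 K
  t : ℤ
  k : ℤ
  ht : t = 0 ∨ t = 1
  hk : D = t + 4 * k
  hω : ω * ω = k + t * ω
  hspan : ∀ a : 𝓞 K, ∃ x y : ℤ, a = x + y * ω
  cj : 𝓞 K ≃+* 𝓞 K
  cj_ω : cj ω = t - ω
  v₁ : 𝓞 K → ℝ
  v₂ : 𝓞 K → ℝ
  v₁_nonneg : ∀ a, 0 ≤ v₁ a
  v₂_nonneg : ∀ a, 0 ≤ v₂ a
  v₁_mul : ∀ a b, v₁ (a * b) = v₁ a * v₁ b
  v₂_mul : ∀ a b, v₂ (a * b) = v₂ a * v₂ b
  v₁_add : ∀ a b, v₁ (a + b) ≤ v₁ a + v₁ b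
  v₂_add : ∀ a b, v₂ (a + b) ≤ v₂ a + v₂ b
  v₁_int : ∀ m : ℤ, v₁ m = |(m : ℝ)|
  v₂_int : ∀ m : ℤ, v₂ m = |(m : ℝ)|
  v₁_cj : ∀ a, v₁ (cj a) = v₂ a
  v₂_cj : ∀ a, v₂ (cj a) = v₁ a
  hnorm : ∀ a : 𝓞 K, ((Ideal.absNorm (Ideal.span {a}) : ℕ) : ℝ) = v₁ a * v₂ a
  himag : D < 0 → ∀ a, v₁ a = v₂ a
  hmink : ∀ I : Ideal (𝓞 K), 0 < Ideal.absNorm I → ∀ A B : ℝ, 0 < A → 0 < B →
    4 * √|(D : ℝ)| * Ideal.absNorm I ≤ A * B → (D < 0 → A = B) →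
    ∃ x ∈ I, x ≠ 0 ∧ v₁ x ≤ A ∧ v₂ x ≤ B

variable {K : Type} [Field K] [NumberField K]

namespace QF

/-- the coefficient of `ω` -/
noncomputable def Y (Q : QF K) (a : 𝓞 K) : ℤ := (Q.hspan a).choose_spec.choose

/-- the conjugate ideal -/
noncomputable def bar (Q : QF K) (I : Ideal (𝓞 K)) : Ideal (𝓞 K) := I.map Q.cj

end QF

/-- an ideal not divisible by a rational prime -/
def Prim (I : Ideal (𝓞 K)) : Prop := ∀ q : ℕ, q.Prime → ¬ Ideal.span {(q : 𝓞 K)} ∣ I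

/-- the elements attached to a class of order 5 -/
structure Full (Q : QF K) where
  a : Ideal (𝓞 K)
  L : Ideal (𝓞 K)
  β : 𝓞 K
  γ : 𝓞 K
  u : 𝓞 K
  v : 𝓞 K
  α : 𝓞 K
  α' : 𝓞 K
  Z : ℤ
  Λ : ℤ
  hZ : Z ≠ 0
  hΛ : Λ ≠ 0
  e1 : β * Q.cj γ = Λ * u
  e2 : β * γ = Z * v
  e3 : β ^ 2 * Q.cj γ = Λ ^ 2 * α
  e4 : γ ^ 2 * β = Z ^ 2 * α'
  nβ : β * Q.cj β = Z ^ 2 * Λ
  nγ : γ * Q.cj γ = Z * Λ ^ 2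
  iβ : Ideal.span {β} = a ^ 2 * L
  iγ : Ideal.span {γ} = Q.bar a * L ^ 2
  iu : Ideal.span {u} = a ^ 3 * Q.bar L
  iv : Ideal.span {v} = a * L ^ 3
  iα : Ideal.span {α} = a ^ 5
  iα' : Ideal.span {α'} = L ^ 5
  na : (Ideal.absNorm a : ℤ) = |Z|
  nL : (Ideal.absNorm L : ℤ) = |Λ|
  pa : Prim a
  pL : Prim L

/-- size conditions; `T` is about `16 |D| ^ (1/4)` -/
structure Full.Bdd {Q : QF K} (F : Full Q) (T : ℕ) : Prop where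
  bn : |Q.Y F.β| ≤ T
  bk : |Q.Y F.γ| ≤ T
  bm : |Q.Y F.u| ≤ (T : ℤ) ^ 2
  bg : |Q.Y F.v| ≤ (T : ℤ) ^ 2
  bZ : |F.Z| ≤ (T : ℤ) ^ 2
  bΛ : |F.Λ| ≤ (T : ℤ) ^ 2
  bβ : Q.v₁ F.β + Q.v₂ F.β ≤ (T : ℝ) ^ 3
  bγ : Q.v₁ F.γ + Q.v₂ F.γ ≤ (T : ℝ) ^ 3

end Pool.Agent.helper3.FT
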