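import Pool.Agent.helper33.FT.TT
import Pool.Agent.helper52.FT.A6f
import Pool.Agent.helper47.FT.A0
import Pool.Agent.helper8.FT.A7
import Pool.Agent.helper65.FT.Z1

set_option autoImplicit false

/-!
# Final assembly: the average of the 5-torsion of quadratic class groups
-/

namespace Pool.Agent.helper3.FT

open Finset NumberField Pool.Agent.helper47.RA

lemma exists_QF (D : ℤ) (hD : IsFund D) :
    ∃ (K : Type) (_ : Field K) (_ : NumberField K) (Q : QF K), Module.finrank ℚ K = 2 ∧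
      NumberField.discr K = D ∧ Q.D = D := by
  rcases lt_trichotomy D 0 with h | h | h
  · exact exists_QF_neg D hD h
  · exact absurd h (fund_ne_zero hD)
  · exact exists_QF_pos D hD h

/-- the size parameter -/
lemma exists_T (N : ℕ) (hN : 1 ≤ N) : ∃ T : ℕ, 1 ≤ T ∧ (16 ^ 4 * (N : ℤ) ≤ (T : ℤ) ^ 4) ∧
    (T : ℝ) ≤ 17 * (N : ℝ) ^ (1 / 4 : ℝ) := by
  have hNR : (1 : ℝ) ≤ N := by exact_mod_cast hN
  have h1 : 1 ≤ (N : ℝ) ^ (1 / 4 : ℝ) := Real.one_le_rpow hNR (by norm_num)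
  have h4 : ((N : ℝ) ^ (1 / 4 : ℝ)) ^ 4 = N := by
    rw [← Real.rpow_natCast, ← Real.rpow_mul (by linarith)]
    norm_num
  refine ⟨⌈16 * (N : ℝ) ^ (1 / 4 : ℝ)⌉₊, ?_, ?_, ?_⟩
  · rw [Nat.one_le_ceil_iff]
    linarith
  · have h2 := Nat.le_ceil (16 * (N : ℝ) ^ (1 / 4 : ℝ))
    have h3 : (16 * (N : ℝ) ^ (1 / 4 : ℝ)) ^ 4 ≤ (⌈16 * (N : ℝ) ^ (1 / 4 : ℝ)⌉₊ : ℝ) ^ 4 :=
      pow_le_pow_left₀ (by positivity) h2 4
    rw [mul_pow, h4] at h3
    exact_mod_cast h3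
  · have h2 := Nat.ceil_lt_add_one (a := 16 * (N : ℝ) ^ (1 / 4 : ℝ)) (by positivity)
    linarith

theorem main_bound (ε : ℝ) (hε : 0 < ε) : ∃ C : ℝ, 0 ≤ C ∧ ∀ f : ℤ → ℕ,
    (∀ (K : Type) [Field K] [NumberField K], Module.finrank ℚ K = 2 →
      f (NumberField.discr K) = Nat.card {x : ClassGroup (𝓞 K) // x ^ 5 = 1}) →
    ∀ (N : ℕ) (s : Finset ℤ), (∀ D ∈ s, IsFund D ∧ |D| < N) →
      ∑ D ∈ s, (f D : ℝ) ≤ C * (N : ℝ) ^ (1 + ε) := by
  classical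
  obtain ⟨C1, hC1, hS⟩ := count_SS (4 * ε) (by positivity)
  obtain ⟨C2, hC2, hZ⟩ := count_ZZ (4 * ε) (by positivity)
  refine ⟨2 + (C1 + 4 * C2) * 17 ^ (4 + 4 * ε), by positivity, ?_⟩
  intro f hf N s hs
  rcases Nat.eq_zero_or_pos N with h0 | hN
  · subst h0
    have : s = ∅ := by
      rw [Finset.eq_empty_iff_forall_notMem]
      intro D hD
      have h1 := (hs D hD).2
      have h2 := abs_nonneg D
      simp at h1
      omega
    rw [this, Finset.sum_empty]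
    positivity
  obtain ⟨T, hT1, hT2, hT3⟩ := exists_T N hN
  obtain ⟨fS, bS⟩ := hS T hT1
  obtain ⟨fZ, bZ⟩ := hZ T hT1
  obtain ⟨f1, s1⟩ := sum_SD T fS s (fun D hD => (hs D hD).1)
  obtain ⟨f2, s2⟩ := sum_ZD T fZ s (fun D hD => (hs D hD).1)
  have hNR : (1 : ℝ) ≤ N := by exact_mod_cast hN
  have hbound : ∀ D ∈ s, f D ≤ 1 + (SD D T).ncard + 2 * (ZD D T).ncard := by
    intro D hD
    obtain ⟨K, i1, i2, Q, hfin, hdisc, hQD⟩ := exists_QF D (hs D hD).1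
    have h1 : 16 ^ 4 * |Q.D| ≤ (T : ℤ) ^ 4 := by
      rw [hQD]
      have := (hs D hD).2
      omega
    have h2 := torsion_le Q T h1 (by rw [hQD]; exact f1 D hD) (by rw [hQD]; exact f2 D hD)
    rw [hQD] at h2
    rw [← hdisc, hf K hfin, hdisc]
    exact h2
  have hcard : s.card ≤ 2 * N := by
    have hsub : s ⊆ Finset.Ioo (-(N : ℤ)) N := by
      intro D hD
      have := (hs D hD).2
      rw [abs_lt] at this
      exact Finset.mem_Ioo.2 this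
    have := Finset.card_le_card hsub
    rw [Int.card_Ioo] at this
    omega
  have hsum : ∑ D ∈ s, f D ≤ 2 * N + (SS T).ncard + 4 * (ZZ T).ncard := by
    calc ∑ D ∈ s, f D ≤ ∑ D ∈ s, (1 + (SD D T).ncard + 2 * (ZD D T).ncard) :=
          Finset.sum_le_sum hbound
      _ = s.card + ∑ D ∈ s, (SD D T).ncard + 2 * ∑ D ∈ s, (ZD D T).ncard := by
          rw [Finset.sum_add_distrib, Finset.sum_add_distrib, Finset.mul_sum]
          simp
      _ ≤ _ := by omega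
  have hT4 : (T : ℝ) ^ (4 + 4 * ε) ≤ 17 ^ (4 + 4 * ε) * (N : ℝ) ^ (1 + ε) := by
    calc (T : ℝ) ^ (4 + 4 * ε) ≤ (17 * (N : ℝ) ^ (1 / 4 : ℝ)) ^ (4 + 4 * ε) :=
          Real.rpow_le_rpow (by positivity) hT3 (by positivity)
      _ = 17 ^ (4 + 4 * ε) * (N : ℝ) ^ (1 + ε) := by
          rw [Real.mul_rpow (by norm_num) (by positivity), ← Real.rpow_mul (by positivity)]
          congr 2
          ring
  have hN1 : (N : ℝ) ≤ (N : ℝ) ^ (1 + ε) := by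
    calc (N : ℝ) = (N : ℝ) ^ (1 : ℝ) := (Real.rpow_one _).symm
      _ ≤ _ := Real.rpow_le_rpow_of_exponent_le hNR (by linarith)
  have hsumR : ∑ D ∈ s, (f D : ℝ) ≤ 2 * N + (SS T).ncard + 4 * (ZZ T).ncard := by
    exact_mod_cast hsum
  calc ∑ D ∈ s, (f D : ℝ) ≤ 2 * N + (SS T).ncard + 4 * (ZZ T).ncard := hsumR
    _ ≤ 2 * N + C1 * (T : ℝ) ^ (4 + 4 * ε) + 4 * (C2 * (T : ℝ) ^ (4 + 4 * ε)) := by linarith
    _ = 2 * N + (C1 + 4 * C2) * (T : ℝ) ^ (4 + 4 * ε) := by ring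
    _ ≤ 2 * (N : ℝ) ^ (1 + ε) + (C1 + 4 * C2) * (17 ^ (4 + 4 * ε) * (N : ℝ) ^ (1 + ε)) := by
        refine add_le_add (by linarith) (mul_le_mul_of_nonneg_left hT4 (by linarith))
    _ = _ := by ring

end Pool.Agent.helper3.FT
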