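import Pool.Agent.helper3.FT.Defs

set_option autoImplicit false

/-!
# Splitting the frequencies
-/

namespace Pool.Agent.helper3.FT

open Finset

lemma split_part (m : ℕ) : ∀ h : ℕ, 1 ≤ h → ∃ d h' : ℕ, h = d * h' ∧ Nat.Coprime h' m ∧
    ∀ p : ℕ, p.Prime → p ∣ d → p ∣ m := by
  intro h
  induction h using Nat.strong_induction_on with
  | _ h ih =>
    intro hh
    by_cases hc : Nat.Coprime h m
    · exact ⟨1, h, (one_mul h).symm, hc, fun p hp h1 => absurd (Nat.dvd_one.1 h1) hp.one_lt.ne'⟩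
    · obtain ⟨q, hq, hqh, hqm⟩ := Nat.Prime.not_coprime_iff_dvd.1 hc
      obtain ⟨h1, rfl⟩ := hqh
      have h1pos : 1 ≤ h1 := by
        rcases Nat.eq_zero_or_pos h1 with h0 | h0
        · subst h0; simp at hh
        · exact h0
      obtain ⟨d, h', e, hc', hd⟩ := ih h1 (by
        have := hq.two_le
        nlinarith) h1pos
      refine ⟨q * d, h', by rw [e]; ring, hc', fun p hp h2 => ?_⟩
      rcases (Nat.Prime.dvd_mul hp).1 h2 with h3 | h3
      · rw [(Nat.prime_dvd_prime_iff_eq hp hq).1 h3]; exact hqm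
      · exact hd p hp h3

lemma yy_pos (d : ℕ) : 1 ≤ yy d := by
  unfold yy
  exact Nat.one_le_iff_ne_zero.2 (Finset.prod_ne_zero_iff.2 fun p hp =>
    (Nat.prime_of_mem_primeFactors (Finset.mem_of_mem_erase hp)).ne_zero)

lemma yy_dvd (d : ℕ) : yy d ∣ d := by
  unfold yy
  exact (Finset.prod_dvd_prod_of_subset _ _ _ (Finset.erase_subset _ _)).trans
    (Nat.prod_primeFactors_dvd d)

lemma yy_squarefree (d : ℕ) : Squarefree (yy d) := by
  unfold yy
  refine Finset.squarefree_prod_of_pairwise_isCoprime (fun p hp q hq hpq => ?_) fun p hp => ?_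
  · have hp' := Nat.prime_of_mem_primeFactors (Finset.mem_of_mem_erase hp)
    have hq' := Nat.prime_of_mem_primeFactors (Finset.mem_of_mem_erase hq)
    exact Nat.coprime_iff_isRelPrime.1 ((Nat.coprime_primes hp' hq').2 hpq)
  · exact (Nat.prime_of_mem_primeFactors (Finset.mem_of_mem_erase hp)).prime.squarefree

lemma yy_dvd_of (d m : ℕ) (hd : ∀ p : ℕ, p.Prime → p ∣ d → p ∣ 5 * m) : yy d ∣ m := by
  unfold yy
  refine Finset.prod_primes_dvd m (fun p hp => ?_) (fun p hp => ?_)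
  · exact (Nat.prime_of_mem_primeFactors (Finset.mem_of_mem_erase hp)).prime
  · have hp' := Nat.prime_of_mem_primeFactors (Finset.mem_of_mem_erase hp)
    have h1 := hd p hp' (Nat.dvd_of_mem_primeFactors (Finset.mem_of_mem_erase hp))
    rcases (Nat.Prime.dvd_mul hp').1 h1 with h2 | h2
    · exact absurd ((Nat.prime_dvd_prime_iff_eq hp' (by norm_num)).1 h2) (Finset.ne_of_mem_erase hp)
    · exact h2

/-- the frequencies and pairs are covered by the split ones -/
theorem cover_sum (N K B J : ℕ) (hB : B < 2 ^ J) (f : ℕ → ℕ × ℕ → ℝ) (hf : ∀ h p, 0 ≤ f h p) :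
    ∑ p ∈ pairs N K 1, ∑ h ∈ Icc 1 B, f h p ≤
      ∑ d ∈ Icc 1 B, ∑ j ∈ range J,
        ∑ h ∈ (Ico (2 ^ j) (2 * 2 ^ j)).filter (fun h => d * h ≤ B),
          ∑ p ∈ (pairs N K (yy d)).filter (fun p => Nat.Coprime h (5 * (p.1 * p.2))),
            f (d * h) p := by
  classical
  -- the choice
  have key : ∀ x : (ℕ × ℕ) × ℕ, ∃ y : (_ : ℕ) × (_ : ℕ) × (_ : ℕ) × (ℕ × ℕ),
      x ∈ pairs N K 1 ×ˢ Icc 1 B →
      (y ∈ (Icc 1 B).sigma (fun d => (range J).sigma (fun j =>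
        ((Ico (2 ^ j) (2 * 2 ^ j)).filter (fun h => d * h ≤ B)).sigma
          (fun h => (pairs N K (yy d)).filter (fun p => Nat.Coprime h (5 * (p.1 * p.2)))))) ∧
        y.2.2.2 = x.1 ∧ y.1 * y.2.2.1 = x.2) := by
    rintro ⟨p, h⟩
    by_cases hx : (p, h) ∈ pairs N K 1 ×ˢ Icc 1 B
    · rw [mem_product, mem_Icc] at hx
      obtain ⟨hp, h1, hB1⟩ := hx
      simp only at hp h1 hB1
      obtain ⟨d, h', e, hc, hd⟩ := split_part (5 * (p.1 * p.2)) h h1
      have hd0 : 1 ≤ d := by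
        rcases Nat.eq_zero_or_pos d with h0 | h0
        · subst h0; simp at e; omega
        · exact h0
      have hh0 : 1 ≤ h' := by
        rcases Nat.eq_zero_or_pos h' with h0 | h0
        · subst h0; simp at e; omega
        · exact h0
      have hdB : d ≤ B := by nlinarith
      have hhB : h' ≤ B := by nlinarith
      refine ⟨⟨d, Nat.log 2 h', h', p⟩, fun _ => ⟨?_, rfl, e.symm⟩⟩
      simp only [mem_sigma, mem_Icc, mem_range, mem_filter, mem_Ico]
      refine ⟨⟨hd0, hdB⟩, ?_, ⟨⟨Nat.pow_log_le_self 2 (by omega), ?_⟩, ?_⟩, ?_, hc⟩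
      · exact Nat.log_lt_of_lt_pow (by omega) (lt_of_le_of_lt hhB hB)
      · have := Nat.lt_pow_succ_log_self (b := 2) (by norm_num) h'
        rw [pow_succ] at this
        omega
      · rw [← e]; exact hB1
      · simp only [pairs, mem_filter] at hp ⊢
        exact ⟨hp.1, hp.2.1, hp.2.2.1, hp.2.2.2.1, yy_dvd_of d _ hd⟩
    · exact ⟨⟨0, 0, 0, 0⟩, fun h => absurd h hx⟩
  choose c hc using key
  have e1 : ∑ p ∈ pairs N K 1, ∑ h ∈ Icc 1 B, f h p =
      ∑ x ∈ pairs N K 1 ×ˢ Icc 1 B, f ((c x).1 * (c x).2.2.1) (c x).2.2.2 := by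
    rw [← Finset.sum_product']
    refine Finset.sum_congr rfl fun x hx => ?_
    obtain ⟨_, h1, h2⟩ := hc x hx
    rw [h1, h2]
  have e2 : ∑ x ∈ pairs N K 1 ×ˢ Icc 1 B, f ((c x).1 * (c x).2.2.1) (c x).2.2.2 =
      ∑ y ∈ (pairs N K 1 ×ˢ Icc 1 B).image c, f (y.1 * y.2.2.1) y.2.2.2 := by
    rw [Finset.sum_image]
    intro x hx x' hx' hxx
    obtain ⟨_, h1, h2⟩ := hc x hx
    obtain ⟨_, h1', h2'⟩ := hc x' hx'
    apply Prod.ext
    · rw [← h1, ← h1', hxx]
    · rw [← h2, ← h2', hxx]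
  rw [e1, e2]
  refine (Finset.sum_le_sum_of_subset_of_nonneg (t := (Icc 1 B).sigma (fun d => (range J).sigma
      (fun j => ((Ico (2 ^ j) (2 * 2 ^ j)).filter (fun h => d * h ≤ B)).sigma
          (fun h => (pairs N K (yy d)).filter (fun p => Nat.Coprime h (5 * (p.1 * p.2))))))) ?_
      (fun _ _ _ => hf _ _)).trans (le_of_eq ?_)
  · intro y hy
    obtain ⟨x, hx, rfl⟩ := Finset.mem_image.1 hy
    exact (hc x hx).1
  · rw [Finset.sum_sigma]
    refine Finset.sum_congr rfl fun d _ => ?_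
    rw [Finset.sum_sigma]
    refine Finset.sum_congr rfl fun j _ => ?_
    rw [Finset.sum_sigma]

end Pool.Agent.helper3.FT
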