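import Mathlib

set_option autoImplicit false

/-!
# Definitions for the average of the 5-torsion of quadratic class groups (analytic part)
-/

namespace Pool.Agent.helper3.FT

open Finset

/-- first cubic form -/
def F1 (A A' B n k : ℤ) : ℤ := 5 * A * n ^ 3 - 2 * A' * n * k ^ 2 + B * k ^ 3

/-- second cubic form -/
def F2 (A' B X n k : ℤ) : ℤ := A' * n ^ 3 + 2 * B * n ^ 2 * k - 5 * X * k ^ 3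

/-- the resultant of the two cubic forms, divided by `-5` -/
def Rf (A A' B X : ℤ) : ℤ :=
  (A' * B) ^ 3 + 75 * (A' * B) ^ 2 * (A * X) - 625 * (A' * B) * (A * X) ^ 2
    + 3125 * (A * X) ^ 3 - 8 * (A * B ^ 5 + A' ^ 5 * X)

/-- distance to the nearest integer -/
noncomputable def nd (x : ℝ) : ℝ := |x - round x|

/-- additive character -/
noncomputable def e (x : ℝ) : ℂ := Complex.exp (2 * Real.pi * Complex.I * x)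

/-- `min (2 M + 1) (1 / (2 ‖x‖))` -/
noncomputable def wt (M : ℕ) (x : ℝ) : ℝ :=
  if 2 * nd x * (2 * M + 1) ≤ 1 then 2 * M + 1 else 1 / (2 * nd x)

/-- the exponential sum of a binary quadratic polynomial over a box -/
noncomputable def ES (M G : ℕ) (a b c : ℝ) : ℂ :=
  ∑ m ∈ Icc (-(M : ℤ)) M, ∑ g ∈ Icc (-(G : ℤ)) G, e (a * m ^ 2 + b * m * g + c * g ^ 2)

open Classical in
/-- the points of the dual box where both linear forms are close to integers -/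
noncomputable def nearPts (M G : ℕ) (a b c : ℝ) : Finset (ℤ × ℤ) :=
  (Icc (-(4 * M : ℤ)) (4 * M) ×ˢ Icc (-(4 * G : ℤ)) (4 * G)).filter
    (fun p => nd (2 * a * p.1 + b * p.2) ≤ 1 / M ∧ nd (b * p.1 + 2 * c * p.2) ≤ 1 / G)

/-- the residues `α, β, γ` describing the congruence conditions for `(n, k)` -/
structure Res (n k α β γ : ℤ) : Prop where
  hα : n ^ 3 ∣ α
  hβ : n ^ 3 ∣ β * k ^ 2 + 1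
  hγ : n ^ 3 ∣ γ * k ^ 4 - n ^ 2
  kα : k ∣ α * n ^ 2 - 1
  kβ : k ∣ β
  kγ : k ∣ γ

/-- product of the primes `≠ 5` dividing `d` -/
def yy (d : ℕ) : ℕ := ∏ p ∈ d.primeFactors.erase 5, p

/-- coprime pairs in a dyadic block with `y ∣ n k` -/
def pairs (N K y : ℕ) : Finset (ℕ × ℕ) :=
  (Icc 1 N ×ˢ Icc 1 K).filter
    (fun p => N < 2 * p.1 ∧ K < 2 * p.2 ∧ Nat.Coprime p.1 p.2 ∧ y ∣ p.1 * p.2)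

/-- the box for `(A, A', B, X)` -/
noncomputable def vbox (N K : ℕ) : Finset (ℤ × ℤ × ℤ × ℤ) :=
  Icc (-(3 * K : ℤ)) (3 * K) ×ˢ Icc (-(3 * K : ℤ)) (3 * K) ×ˢ
    Icc (-(15 * N : ℤ)) (15 * N) ×ˢ Icc (-(15 * N : ℤ)) (15 * N)

/-- the dual points: `h ∈ [P, 2 P)` -/
noncomputable def dualSet (N K y P : ℕ) : Finset (ℕ × (ℕ × ℕ) × (ℤ × ℤ × ℤ × ℤ)) :=
  (Ico P (2 * P) ×ˢ pairs N K y ×ˢ vbox N K).filter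
    (fun t => Nat.Coprime t.1 (5 * (t.2.1.1 * t.2.1.2)) ∧
      ((t.1 : ℤ) ∣ F1 t.2.2.1 t.2.2.2.1 t.2.2.2.2.1 t.2.1.1 t.2.1.2) ∧
      ((t.1 : ℤ) ∣ F2 t.2.2.2.1 t.2.2.2.2.1 t.2.2.2.2.2 t.2.1.1 t.2.1.2) ∧
      (F1 t.2.2.1 t.2.2.2.1 t.2.2.2.2.1 t.2.1.1 t.2.1.2 ≠ 0 ∨
        F2 t.2.2.2.1 t.2.2.2.2.1 t.2.2.2.2.2 t.2.1.1 t.2.1.2 ≠ 0))

/-- the points of one block: `((n, k), (m, g, z))` -/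
noncomputable def blockSet (Q N K M G : ℕ) : Finset ((ℕ × ℕ) × (ℤ × ℤ × ℤ)) :=
  (pairs N K 1 ×ˢ (Icc (-(M : ℤ)) M ×ˢ Icc (-(G : ℤ)) G ×ˢ Icc (-(Q : ℤ)) Q)).filter
    (fun t => ((t.1.1 : ℤ) ^ 3 ∣ t.2.2.2 * (t.1.2 : ℤ) ^ 4 + t.2.1 * t.2.2.1 * (t.1.2 : ℤ) ^ 2
        - t.2.2.1 ^ 2 * (t.1.1 : ℤ) ^ 2) ∧
      ((t.1.2 : ℤ) ∣ t.2.1 ^ 2 - t.2.2.2 * (t.1.1 : ℤ) ^ 2))

/-- the final count: `(n, k, m, g, z, l)` -/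
def SS (T : ℕ) : Set (ℤ × ℤ × ℤ × ℤ × ℤ × ℤ) :=
  {t | t.1 ≠ 0 ∧ t.2.1 ≠ 0 ∧ IsCoprime t.1 t.2.1 ∧ |t.1| ≤ T ∧ |t.2.1| ≤ T ∧
    |t.2.2.1| ≤ (T : ℤ) ^ 2 ∧ |t.2.2.2.1| ≤ (T : ℤ) ^ 2 ∧ |t.2.2.2.2.1| ≤ (T : ℤ) ^ 2 ∧
    |t.2.2.2.2.2| ≤ (T : ℤ) ^ 2 ∧
    t.2.2.1 * t.2.2.2.1 = t.2.2.2.2.2 * t.1 ^ 2 - t.2.2.2.2.1 * t.2.1 ^ 2 ∧
    t.2.1 ∣ t.2.2.1 ^ 2 - t.2.2.2.2.1 * t.1 ^ 2 ∧
    t.1 ∣ t.2.2.2.1 ^ 2 - t.2.2.2.2.2 * t.2.1 ^ 2}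

/-- the degenerate count: `(m, g, e)` -/
def ZZ (T : ℕ) : Set (ℤ × ℤ × ℤ) :=
  {t | t.1 ≠ 0 ∧ t.2.1 ≠ 0 ∧ |t.1 * t.2.1| ≤ (T : ℤ) ^ 2 ∧ t.2.1 ^ 2 ≤ (T : ℤ) ^ 2 ∧
    |t.2.2| ≤ (T : ℤ) ^ 3 ∧ t.1 ∣ t.2.2}

end Pool.Agent.helper3.FT
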