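import Pool.Agent.helper3.FT.G3
import Pool.Agent.helper65.FT.S

set_option autoImplicit false

/-!
# The count of one block
-/

namespace Pool.Agent.helper3.FT

open Finset

lemma blockSet_card (Q N K M G : ℕ) :
    (blockSet Q N K M G).card = ∑ p ∈ pairs N K 1, (fibre Q M G p.1 p.2).card := by
  classical
  unfold blockSet fibre
  rw [Finset.card_filter, Finset.sum_product]
  refine Finset.sum_congr rfl fun p _ => ?_
  rw [Finset.card_filter]

lemma pairs_card_le (N K : ℕ) : (pairs N K 1).card ≤ N * K := by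
  refine (Finset.card_filter_le _ _).trans ?_
  rw [Finset.card_product, Nat.card_Icc, Nat.card_Icc]
  simp

lemma mem_pairs_facts {N K y : ℕ} {p : ℕ × ℕ} (hp : p ∈ pairs N K y) :
    1 ≤ p.1 ∧ p.1 ≤ N ∧ N < 2 * p.1 ∧ 1 ≤ p.2 ∧ p.2 ≤ K ∧ K < 2 * p.2 ∧
      Nat.Coprime p.1 p.2 := by
  simp only [pairs, mem_filter, mem_product, mem_Icc] at hp
  tauto

lemma sixteen (N K n k : ℕ) (h1 : N < 2 * n) (h2 : K < 2 * k) : N ^ 3 * K ≤ 16 * (n ^ 3 * k) := by
  calc N ^ 3 * K ≤ (2 * n) ^ 3 * (2 * k) :=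
        Nat.mul_le_mul (Nat.pow_le_pow_left h1.le 3) h2.le
    _ = 16 * (n ^ 3 * k) := by ring

/-- the number of dyadic ranges -/
lemma log_bound (δ : ℝ) (hδ : 0 < δ) (T B : ℕ) (hT : 1 ≤ T) (hB0 : 1 ≤ B) (hB : B ≤ T ^ 2) :
    ((Nat.log 2 B + 1 : ℕ) : ℝ) ≤ (1 + 2 / (δ * Real.log 2)) * (T : ℝ) ^ δ := by
  have hTR : (1 : ℝ) ≤ T := by exact_mod_cast hT
  have hl2 : 0 < Real.log 2 := Real.log_pos (by norm_num)
  have h1 : (2 : ℝ) ^ (Nat.log 2 B) ≤ (T : ℝ) ^ 2 := by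
    have : 2 ^ (Nat.log 2 B) ≤ T ^ 2 := (Nat.pow_log_le_self 2 (by omega)).trans hB
    exact_mod_cast this
  have h2 : (Nat.log 2 B : ℝ) * Real.log 2 ≤ 2 * Real.log T := by
    have := Real.log_le_log (by positivity) h1
    rw [Real.log_pow, Real.log_pow] at this
    push_cast at this
    exact this
  have h3 := Real.log_le_rpow_div (by linarith : (0 : ℝ) ≤ T) hδ
  have h4 : 1 ≤ (T : ℝ) ^ δ := Real.one_le_rpow hTR hδ.le
  have h5 : (Nat.log 2 B : ℝ) ≤ 2 * ((T : ℝ) ^ δ / δ) / Real.log 2 := by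
    rw [le_div_iff₀ hl2]
    linarith
  push_cast
  have h6 : 2 * ((T : ℝ) ^ δ / δ) / Real.log 2 = 2 / (δ * Real.log 2) * (T : ℝ) ^ δ := by
    field_simp
  nlinarith

theorem block_count (ε : ℝ) (hε : 0 < ε) : ∃ C : ℝ, 1 ≤ C ∧ ∀ T N K M G : ℕ, 1 ≤ K → K ≤ N →
    N ≤ T → M * G = 4 * T ^ 2 * N ^ 2 → N ^ 2 ≤ M → M ≤ T ^ 2 →
    ((blockSet (T ^ 2) N K M G).card : ℝ) ≤ C * (T : ℝ) ^ (4 + ε) := by
  classical
  set δ := ε / 4 with hδdef
  have hδ : 0 < δ := by positivity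
  obtain ⟨C0, hC0, hone⟩ := one_range δ hδ
  obtain ⟨CS, hCS, hsum⟩ := yy_sum δ hδ
  set cJ : ℝ := 1 + 2 / (δ * Real.log 2) with hcJ
  have hl2 : 0 < Real.log 2 := Real.log_pos (by norm_num)
  have hcJ1 : 1 ≤ cJ := by
    rw [hcJ]
    have : 0 ≤ 2 / (δ * Real.log 2) := by positivity
    linarith
  have hres : ∀ p : ℕ × ℕ, ∃ t : ℤ × ℤ × ℤ, 1 ≤ p.1 → 1 ≤ p.2 → Nat.Coprime p.1 p.2 →
      Res p.1 p.2 t.1 t.2.1 t.2.2 := by
    intro p
    by_cases h : 1 ≤ p.1 ∧ 1 ≤ p.2 ∧ Nat.Coprime p.1 p.2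
    · obtain ⟨α, β, γ, hr⟩ := exists_res p.1 p.2 (by have := h.1; omega) (by have := h.2.1; omega)
        (Nat.isCoprime_iff_coprime.2 h.2.2)
      exact ⟨(α, β, γ), fun _ _ _ => hr⟩
    · exact ⟨(0, 0, 0), fun h1 h2 h3 => absurd ⟨h1, h2, h3⟩ h⟩
  choose r hr using hres
  set CC : ℝ := 18432 + 1024 * (C0 * CS * cJ) with hCC
  refine ⟨CC, by
    have : 0 ≤ 1024 * (C0 * CS * cJ) := by positivity
    linarith, ?_⟩
  intro T N K M G hK hKN hNT hMG hM hMT
  have hN : 1 ≤ N := hK.trans hKN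
  have hT : 1 ≤ T := hN.trans hNT
  have hM1 : 1 ≤ M := le_trans (Nat.one_le_pow _ _ hN) hM
  have hG1 : 1 ≤ G := by
    rcases Nat.eq_zero_or_pos G with h | h
    · subst h
      have : 0 < 4 * T ^ 2 * N ^ 2 := by positivity
      omega
    · exact h
  have hTR : (1 : ℝ) ≤ T := by exact_mod_cast hT
  have hKR : (1 : ℝ) ≤ K := by exact_mod_cast hK
  have hNR : (1 : ℝ) ≤ N := by exact_mod_cast hN
  have hMR : (1 : ℝ) ≤ M := by exact_mod_cast hM1
  have hGR : (1 : ℝ) ≤ G := by exact_mod_cast hG1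
  have hMG9 : (2 * (M : ℝ) + 1) * (2 * G + 1) ≤ 36 * ((T : ℝ) ^ 2 * N ^ 2) := by
    have e : (M : ℝ) * G = 4 * (T : ℝ) ^ 2 * N ^ 2 := by exact_mod_cast hMG
    have : (2 * (M : ℝ) + 1) * (2 * G + 1) ≤ (3 * M) * (3 * G) :=
      mul_le_mul (by linarith) (by linarith) (by positivity) (by positivity)
    calc _ ≤ (3 * (M : ℝ)) * (3 * G) := this
      _ = 9 * ((M : ℝ) * G) := by ring
      _ = _ := by rw [e]; ring
  have hpc : ((pairs N K 1).card : ℝ) ≤ N * K := by exact_mod_cast pairs_card_le N K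
  have hT4 : (T : ℝ) ^ (4 + ε) = (T : ℝ) ^ 4 * (T : ℝ) ^ ε := by
    rw [Real.rpow_add (by linarith)]
    congr 1
    exact_mod_cast Real.rpow_natCast (T : ℝ) 4
  have hTε : 1 ≤ (T : ℝ) ^ ε := Real.one_le_rpow hTR hε.le
  rw [blockSet_card, Nat.cast_sum]
  rcases Nat.eq_zero_or_pos (N ^ 3 * K / (128 * T ^ 2)) with hB0 | hB0
  · -- small modulus
    have hlt : N ^ 3 * K < 128 * T ^ 2 := by
      rcases Nat.div_eq_zero_iff.1 hB0 with h | h
      · have : 0 < 128 * T ^ 2 := by positivity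
        omega
      · exact h
    have hltR : (N : ℝ) ^ 3 * K < 128 * (T : ℝ) ^ 2 := by exact_mod_cast hlt
    have hN3K : (0 : ℝ) < (N : ℝ) ^ 3 * K := by positivity
    have h1 : ∀ p ∈ pairs N K 1, ((fibre (T ^ 2) M G p.1 p.2).card : ℝ) ≤
        36 * ((T : ℝ) ^ 2 * N ^ 2) * (160 * (T : ℝ) ^ 2 / ((N : ℝ) ^ 3 * K)) := by
      intro p hp
      obtain ⟨h1, h2, h3, h4, h5, h6, h7⟩ := mem_pairs_facts hp
      refine (fibre_trivial (T ^ 2) M G p.1 p.2 h1 h4 h7).trans ?_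
      refine mul_le_mul hMG9 ?_ (by positivity) (by positivity)
      have h16 : ((N : ℝ) ^ 3 * K) ≤ 16 * ((p.1 : ℝ) ^ 3 * p.2) := by
        exact_mod_cast sixteen N K p.1 p.2 h3 h6
      have hq : 0 < (p.1 : ℝ) ^ 3 * p.2 := by
        have : (0 : ℝ) < p.1 := by exact_mod_cast h1
        have : (0 : ℝ) < p.2 := by exact_mod_cast h4
        positivity
      have a1 : 2 * ((T ^ 2 : ℕ) : ℝ) / ((p.1 : ℝ) ^ 3 * p.2) ≤
          32 * (T : ℝ) ^ 2 / ((N : ℝ) ^ 3 * K) := by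
        rw [div_le_div_iff₀ hq hN3K]
        push_cast
        have : 0 ≤ (T : ℝ) ^ 2 := by positivity
        nlinarith
      have a2 : (1 : ℝ) ≤ 128 * (T : ℝ) ^ 2 / ((N : ℝ) ^ 3 * K) := by
        rw [one_le_div hN3K]; exact hltR.le
      calc 2 * ((T ^ 2 : ℕ) : ℝ) / ((p.1 : ℝ) ^ 3 * p.2) + 1 ≤
          32 * (T : ℝ) ^ 2 / ((N : ℝ) ^ 3 * K) + 128 * (T : ℝ) ^ 2 / ((N : ℝ) ^ 3 * K) :=
            add_le_add a1 a2
        _ = _ := by ring
    calc ∑ p ∈ pairs N K 1, ((fibre (T ^ 2) M G p.1 p.2).card : ℝ)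
        ≤ ∑ _p ∈ pairs N K 1, 36 * ((T : ℝ) ^ 2 * N ^ 2) *
            (160 * (T : ℝ) ^ 2 / ((N : ℝ) ^ 3 * K)) := Finset.sum_le_sum h1
      _ = ((pairs N K 1).card : ℝ) * (36 * ((T : ℝ) ^ 2 * N ^ 2) *
            (160 * (T : ℝ) ^ 2 / ((N : ℝ) ^ 3 * K))) := by rw [Finset.sum_const, nsmul_eq_mul]
      _ ≤ (N * K) * (36 * ((T : ℝ) ^ 2 * N ^ 2) *
            (160 * (T : ℝ) ^ 2 / ((N : ℝ) ^ 3 * K))) :=
          mul_le_mul_of_nonneg_right hpc (by positivity)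
      _ = 5760 * (T : ℝ) ^ 4 := by field_simp; ring
      _ ≤ CC * ((T : ℝ) ^ 4 * (T : ℝ) ^ ε) := by
          have h0 : (T : ℝ) ^ 4 ≤ (T : ℝ) ^ 4 * (T : ℝ) ^ ε :=
            le_mul_of_one_le_right (by positivity) hTε
          have h2 : (5760 : ℝ) ≤ CC := by
            have : 0 ≤ 1024 * (C0 * CS * cJ) := by positivity
            linarith
          exact mul_le_mul h2 h0 (by positivity) (by linarith)
      _ = _ := by rw [hT4]
  · -- large modulus
    set B := N ^ 3 * K / (128 * T ^ 2) with hB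
    have hBle : B * (128 * T ^ 2) ≤ N ^ 3 * K := Nat.div_mul_le_self _ _
    have hBlt : N ^ 3 * K < (B + 1) * (128 * T ^ 2) := by
      exact Nat.lt_mul_of_div_lt (by omega) (by positivity)
    have hNT2 : N ^ 3 * K ≤ T ^ 4 := by
      calc N ^ 3 * K ≤ T ^ 3 * T := Nat.mul_le_mul (Nat.pow_le_pow_left hNT 3) (hKN.trans hNT)
        _ = T ^ 4 := by ring
    have hBT : B ≤ T ^ 2 := by
      have h1 : T ^ 2 * B ≤ T ^ 2 * T ^ 2 := by
        calc T ^ 2 * B ≤ B * (128 * T ^ 2) := by nlinarith [Nat.zero_le (T ^ 2 * B)]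
          _ ≤ T ^ 4 := hBle.trans hNT2
          _ = T ^ 2 * T ^ 2 := by ring
      exact Nat.le_of_mul_le_mul_left h1 (by positivity)
    have hBR : (1 : ℝ) ≤ B := by exact_mod_cast hB0
    have hBR0 : (0 : ℝ) < B := by linarith
    -- lower bound of `B`
    have hBlow : (N : ℝ) ^ 3 * K ≤ 256 * ((T : ℝ) ^ 2 * B) := by
      have h1 : N ^ 3 * K ≤ 256 * (T ^ 2 * B) := by
        have : (B + 1) * (128 * T ^ 2) ≤ 256 * (T ^ 2 * B) := by
          have h2 : (B + 1) * (128 * T ^ 2) ≤ (2 * B) * (128 * T ^ 2) :=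
            Nat.mul_le_mul_right _ (by omega)
          calc _ ≤ (2 * B) * (128 * T ^ 2) := h2
            _ = _ := by ring
        omega
      exact_mod_cast h1
    have h1 : ∀ p ∈ pairs N K 1, ((fibre (T ^ 2) M G p.1 p.2).card : ℝ) ≤
        2 / B * (36 * ((T : ℝ) ^ 2 * N ^ 2) + 2 * ∑ h ∈ Icc 1 B, EE M G r h p) := by
      intro p hp
      obtain ⟨h1, h2, h3, h4, h5, h6, h7⟩ := mem_pairs_facts hp
      refine (fibre_fejer (T ^ 2) M G p.1 p.2 B h1 h4 h7 (Nat.one_le_pow _ _ hT) hB0 ?_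
        (r p).1 (r p).2.1 (r p).2.2 (hr p h1 h4 h7)).trans ?_
      · have := sixteen N K p.1 p.2 h3 h6
        have h8 : 16 * (8 * T ^ 2 * B) ≤ 16 * (p.1 ^ 3 * p.2) := by
          calc 16 * (8 * T ^ 2 * B) = B * (128 * T ^ 2) := by ring
            _ ≤ _ := hBle.trans this
        omega
      · refine mul_le_mul_of_nonneg_left (add_le_add hMG9 ?_) (by positivity)
        refine mul_le_mul_of_nonneg_left ?_ (by norm_num)
        refine Finset.sum_le_sum_of_subset_of_nonneg ?_ (fun _ _ _ => norm_nonneg _)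
        intro h hh
        rw [mem_Ico] at hh
        rw [mem_Icc]
        omega
    have hJ : B < 2 ^ (Nat.log 2 B + 1) := Nat.lt_pow_succ_log_self (by norm_num) B
    have hcov := cover_sum N K B (Nat.log 2 B + 1) hJ (EE M G r) (fun _ _ => norm_nonneg _)
    -- the main sum
    have hmain : ∑ p ∈ pairs N K 1, ∑ h ∈ Icc 1 B, EE M G r h p ≤
        (C0 * CS * cJ) * ((T : ℝ) ^ ε * ((T : ℝ) ^ 2 * N ^ 3 * K)) := by
      refine hcov.trans ?_
      have h2 : ∀ d ∈ Icc 1 B, ∀ j ∈ range (Nat.log 2 B + 1),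
          ∑ h ∈ (Ico (2 ^ j) (2 * 2 ^ j)).filter (fun h => d * h ≤ B),
          ∑ p ∈ (pairs N K (yy d)).filter (fun p => Nat.Coprime h (5 * (p.1 * p.2))),
            EE M G r (d * h) p ≤
            C0 * (T : ℝ) ^ δ * ((T : ℝ) ^ 2 * N ^ 3 * K / (yy d : ℝ)) := by
        intro d hd j _
        have h3 := hone T N K M G d (2 ^ j) r hK hKN hNT hMG hM hMT (mem_Icc.1 hd).1
          (Nat.one_le_two_pow) hr
        refine le_trans (le_of_eq ?_) h3
        refine Finset.sum_congr (Finset.filter_congr fun h _ => ?_) fun _ _ => rfl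
        rw [hB, Nat.le_div_iff_mul_le (by positivity)]
        constructor
        · intro h4; calc 128 * T ^ 2 * (d * h) = d * h * (128 * T ^ 2) := by ring
            _ ≤ _ := h4
        · intro h4; calc d * h * (128 * T ^ 2) = 128 * T ^ 2 * (d * h) := by ring
            _ ≤ _ := h4
      calc _ ≤ ∑ d ∈ Icc 1 B, ∑ _j ∈ range (Nat.log 2 B + 1),
            C0 * (T : ℝ) ^ δ * ((T : ℝ) ^ 2 * N ^ 3 * K / (yy d : ℝ)) :=
            Finset.sum_le_sum fun d hd => Finset.sum_le_sum fun j hj => h2 d hd j hj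
        _ = (((Nat.log 2 B + 1 : ℕ) : ℝ) * (C0 * (T : ℝ) ^ δ * ((T : ℝ) ^ 2 * N ^ 3 * K))) *
            ∑ d ∈ Icc 1 B, (1 : ℝ) / (yy d : ℝ) := by
            rw [Finset.mul_sum]
            refine Finset.sum_congr rfl fun d _ => ?_
            rw [Finset.sum_const, card_range, nsmul_eq_mul]
            ring
        _ ≤ ((cJ * (T : ℝ) ^ δ) * (C0 * (T : ℝ) ^ δ * ((T : ℝ) ^ 2 * N ^ 3 * K))) *
            (CS * ((T : ℝ) ^ δ * (T : ℝ) ^ δ)) := by
            refine mul_le_mul ?_ ?_ (Finset.sum_nonneg fun _ _ => by positivity) (by positivity)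
            · exact mul_le_mul_of_nonneg_right (log_bound δ hδ T B hT hB0 hBT) (by positivity)
            · refine (hsum B hB0).trans (mul_le_mul_of_nonneg_left ?_ (by linarith))
              rw [← Real.mul_rpow (by positivity) (by positivity)]
              refine Real.rpow_le_rpow (by positivity) ?_ hδ.le
              have : B ≤ T * T := by rw [← sq]; exact hBT
              exact_mod_cast this
        _ = (C0 * CS * cJ) * (((T : ℝ) ^ δ) ^ 4 * ((T : ℝ) ^ 2 * N ^ 3 * K)) := by ring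
        _ = _ := by
            rw [← Real.rpow_natCast, ← Real.rpow_mul (by linarith)]
            congr 3
            rw [hδdef]; push_cast; ring
    calc ∑ p ∈ pairs N K 1, ((fibre (T ^ 2) M G p.1 p.2).card : ℝ)
        ≤ ∑ p ∈ pairs N K 1, 2 / B * (36 * ((T : ℝ) ^ 2 * N ^ 2) +
            2 * ∑ h ∈ Icc 1 B, EE M G r h p) := Finset.sum_le_sum h1
      _ = 2 / B * (((pairs N K 1).card : ℝ) * (36 * ((T : ℝ) ^ 2 * N ^ 2)) +
            2 * ∑ p ∈ pairs N K 1, ∑ h ∈ Icc 1 B, EE M G r h p) := by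
          rw [← Finset.mul_sum, Finset.sum_add_distrib, Finset.sum_const, nsmul_eq_mul,
            ← Finset.mul_sum]
      _ ≤ 2 / B * ((N * K) * (36 * ((T : ℝ) ^ 2 * N ^ 2)) +
            2 * ((C0 * CS * cJ) * ((T : ℝ) ^ ε * ((T : ℝ) ^ 2 * N ^ 3 * K)))) := by
          refine mul_le_mul_of_nonneg_left (add_le_add ?_ ?_) (by positivity)
          · exact mul_le_mul_of_nonneg_right hpc (by positivity)
          · exact mul_le_mul_of_nonneg_left hmain (by norm_num)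
      _ = (72 + 4 * (C0 * CS * cJ) * (T : ℝ) ^ ε) * ((T : ℝ) ^ 2 * ((N : ℝ) ^ 3 * K / B)) := by
          field_simp
          ring
      _ ≤ (72 + 4 * (C0 * CS * cJ) * (T : ℝ) ^ ε) * ((T : ℝ) ^ 2 * (256 * (T : ℝ) ^ 2)) := by
          refine mul_le_mul_of_nonneg_left ?_ (by positivity)
          refine mul_le_mul_of_nonneg_left ?_ (by positivity)
          rw [div_le_iff₀ hBR0]
          linarith
      _ = 18432 * (T : ℝ) ^ 4 + 1024 * (C0 * CS * cJ) * ((T : ℝ) ^ 4 * (T : ℝ) ^ ε) := by ring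
      _ ≤ 18432 * ((T : ℝ) ^ 4 * (T : ℝ) ^ ε) +
            1024 * (C0 * CS * cJ) * ((T : ℝ) ^ 4 * (T : ℝ) ^ ε) := by
          have h0 : (T : ℝ) ^ 4 ≤ (T : ℝ) ^ 4 * (T : ℝ) ^ ε :=
            le_mul_of_one_le_right (by positivity) hTε
          linarith
      _ = CC * ((T : ℝ) ^ 4 * (T : ℝ) ^ ε) := by rw [hCC]; ring
      _ = _ := by rw [hT4]

end Pool.Agent.helper3.FT
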