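import Pool.Agent.helper3.FT.Defs

set_option autoImplicit false

/-!
# Inequalities for one block
-/

namespace Pool.Agent.helper3.FT

open Finset

lemma ineq_core (P y N K Q : ℝ) (hP : 1 ≤ P) (hy : 1 ≤ y) (hK : 1 ≤ K) (hKN : K ≤ N)
    (hNQ : N ^ 2 ≤ Q) (h : 128 * Q * (P * y) ≤ N ^ 3 * K) :
    (P * (N * K / y)) * (Q * N ^ 2) *
      (P * (N * K / y) + (K ^ 2 * N ^ 2 * (1 + K * N / (y * P)) + N ^ 3 * K / y)) ≤
      4 * (Q * N ^ 3 * K / y) ^ 2 := by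
  have hN : 1 ≤ N := hK.trans hKN
  have hN0 : 0 < N := by linarith
  have hK0 : 0 < K := by linarith
  have hP0 : 0 < P := by linarith
  have hy0 : 0 < y := by linarith
  have hQ0 : 0 < Q := lt_of_lt_of_le (by positivity) hNQ
  have e1 : (P * (N * K / y)) * (Q * N ^ 2) *
      (P * (N * K / y) + (K ^ 2 * N ^ 2 * (1 + K * N / (y * P)) + N ^ 3 * K / y)) =
      (Q * N ^ 3 * K / y ^ 2) *
        (P ^ 2 * (N * K) + (P * y) * (K ^ 2 * N ^ 2) + K ^ 3 * N ^ 3 + P * (N ^ 3 * K)) := by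
    field_simp
    ring
  have e2 : 4 * (Q * N ^ 3 * K / y) ^ 2 = (Q * N ^ 3 * K / y ^ 2) * (4 * (Q * (N ^ 3 * K))) := by
    field_simp
  rw [e1, e2]
  refine mul_le_mul_of_nonneg_left ?_ (by positivity)
  -- size of `P`
  have hN3K : N ^ 3 * K ≤ N ^ 2 * Q := by
    have h1 : N ^ 3 * K ≤ N ^ 3 * N := mul_le_mul_of_nonneg_left hKN (by positivity)
    have h2 : N ^ 3 * N = N ^ 2 * N ^ 2 := by ring
    have h3 : N ^ 2 * N ^ 2 ≤ N ^ 2 * Q := mul_le_mul_of_nonneg_left hNQ (by positivity)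
    linarith
  have hPy : P * y ≤ N ^ 2 := by
    have h1 : Q * (P * y) ≤ Q * N ^ 2 := by
      have : 0 ≤ Q * (P * y) := by positivity
      linarith
    exact le_of_mul_le_mul_left h1 hQ0
  have hPN : P ≤ N ^ 2 := by
    have : P * 1 ≤ P * y := mul_le_mul_of_nonneg_left hy hP0.le
    linarith
  have hPQ : P ≤ Q := hPN.trans hNQ
  have t1 : P ^ 2 * (N * K) ≤ Q * (N ^ 3 * K) := by
    have : P ^ 2 ≤ Q * N ^ 2 := by
      rw [sq]; exact mul_le_mul hPQ hPN hP0.le hQ0.le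
    calc P ^ 2 * (N * K) ≤ (Q * N ^ 2) * (N * K) := mul_le_mul_of_nonneg_right this (by positivity)
      _ = Q * (N ^ 3 * K) := by ring
  have t2 : (P * y) * (K ^ 2 * N ^ 2) ≤ Q * (N ^ 3 * K) := by
    have h1 : K ^ 2 * N ^ 2 ≤ Q * (N * K) := by
      have : N * K ≤ Q := by nlinarith
      calc K ^ 2 * N ^ 2 = (N * K) * (N * K) := by ring
        _ ≤ Q * (N * K) := mul_le_mul_of_nonneg_right this (by positivity)
    calc (P * y) * (K ^ 2 * N ^ 2) ≤ N ^ 2 * (Q * (N * K)) :=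
          mul_le_mul hPy h1 (by positivity) (by positivity)
      _ = Q * (N ^ 3 * K) := by ring
  have t3 : K ^ 3 * N ^ 3 ≤ Q * (N ^ 3 * K) := by
    have : K ^ 2 ≤ Q := by nlinarith
    calc K ^ 3 * N ^ 3 = K ^ 2 * (N ^ 3 * K) := by ring
      _ ≤ Q * (N ^ 3 * K) := mul_le_mul_of_nonneg_right this (by positivity)
  have t4 : P * (N ^ 3 * K) ≤ Q * (N ^ 3 * K) := mul_le_mul_of_nonneg_right hPQ (by positivity)
  linarith

lemma one_add_log_le (δ : ℝ) (hδ : 0 < δ) (x : ℝ) (hx : 1 ≤ x) :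
    1 + Real.log x ≤ (1 + 1 / δ) * x ^ δ := by
  have h1 := Real.log_le_rpow_div (by linarith : (0 : ℝ) ≤ x) hδ
  have h2 : 1 ≤ x ^ δ := Real.one_le_rpow hx hδ.le
  have : x ^ δ / δ = (1 / δ) * x ^ δ := by ring
  nlinarith

/-- the logarithms are absorbed -/
lemma logs_le (δ : ℝ) (hδ : 0 < δ) (T N M G : ℕ) (hM : N ^ 2 ≤ M) (hMT : M ≤ T ^ 2)
    (hMG : M * G = 4 * T ^ 2 * N ^ 2) (hM1 : 1 ≤ M) (hG1 : 1 ≤ G) :
    (1 + Real.log M) * (1 + Real.log G) ≤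
      ((1 + 1 / δ) ^ 2 * 4 ^ δ) * (T : ℝ) ^ (4 * δ) := by
  have hT1 : 1 ≤ T := by
    rcases Nat.eq_zero_or_pos T with h | h
    · subst h; simp at hMT; omega
    · exact h
  have hTR : (1 : ℝ) ≤ T := by exact_mod_cast hT1
  have hG4 : G ≤ 4 * T ^ 2 := by
    have h1 : M * G ≤ M * (4 * T ^ 2) := by
      rw [hMG]
      calc 4 * T ^ 2 * N ^ 2 ≤ 4 * T ^ 2 * M := Nat.mul_le_mul_left _ hM
        _ = M * (4 * T ^ 2) := by ring
    exact Nat.le_of_mul_le_mul_left h1 hM1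
  have hMR : (1 : ℝ) ≤ M := by exact_mod_cast hM1
  have hGR : (1 : ℝ) ≤ G := by exact_mod_cast hG1
  have hM2 : (M : ℝ) ≤ (T : ℝ) ^ 2 := by exact_mod_cast hMT
  have hG2 : (G : ℝ) ≤ 4 * (T : ℝ) ^ 2 := by exact_mod_cast hG4
  have a1 := one_add_log_le δ hδ M hMR
  have a2 := one_add_log_le δ hδ G hGR
  have b1 : (M : ℝ) ^ δ ≤ (T : ℝ) ^ (2 * δ) := by
    calc (M : ℝ) ^ δ ≤ ((T : ℝ) ^ 2) ^ δ := Real.rpow_le_rpow (by linarith) hM2 hδ.le
      _ = (T : ℝ) ^ (2 * δ) := by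
        rw [← Real.rpow_natCast, ← Real.rpow_mul (by linarith)]; norm_num
  have b2 : (G : ℝ) ^ δ ≤ 4 ^ δ * (T : ℝ) ^ (2 * δ) := by
    calc (G : ℝ) ^ δ ≤ (4 * (T : ℝ) ^ 2) ^ δ := Real.rpow_le_rpow (by linarith) hG2 hδ.le
      _ = 4 ^ δ * (T : ℝ) ^ (2 * δ) := by
        rw [Real.mul_rpow (by norm_num) (by positivity), ← Real.rpow_natCast,
          ← Real.rpow_mul (by linarith)]; norm_num
  have hc : 0 < 1 + 1 / δ := by positivity
  have l1 : 0 ≤ Real.log M := Real.log_nonneg hMR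
  have l2 : 0 ≤ Real.log G := Real.log_nonneg hGR
  calc (1 + Real.log M) * (1 + Real.log G)
      ≤ ((1 + 1 / δ) * (T : ℝ) ^ (2 * δ)) * ((1 + 1 / δ) * (4 ^ δ * (T : ℝ) ^ (2 * δ))) := by
        refine mul_le_mul (a1.trans (mul_le_mul_of_nonneg_left b1 hc.le))
          (a2.trans (mul_le_mul_of_nonneg_left b2 hc.le)) (by positivity) (by positivity)
    _ = ((1 + 1 / δ) ^ 2 * 4 ^ δ) * ((T : ℝ) ^ (2 * δ) * (T : ℝ) ^ (2 * δ)) := by ring
    _ = _ := by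
        rw [← Real.rpow_add (by linarith)]
        ring_nf

end Pool.Agent.helper3.FT
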