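import Pool.Agent.helper77.FT.P6c
import Pool.Agent.helper65.FT.E12
import Pool.Agent.helper65.FT.R
import Pool.Agent.helper61.FT.N
import Pool.Agent.helper96.FT.P7
import Pool.Agent.helper3.FT.G1
import Pool.Agent.helper3.FT.G2
import Pool.Agent.helper47.RA.Num

set_option autoImplicit false

/-!
# One divisor `d` and one dyadic range of the complementary divisor
-/

namespace Pool.Agent.helper3.FT

open Finset

/-- the norm of the exponential sum at the frequency `h` -/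
noncomputable def EE (M G : ℕ) (r : ℕ × ℕ → ℤ × ℤ × ℤ) (h : ℕ) (p : ℕ × ℕ) : ℝ :=
  ‖ES M G (h * (r p).1 / ((p.1 : ℝ) ^ 3 * p.2)) (h * (r p).2.1 / ((p.1 : ℝ) ^ 3 * p.2))
    (h * (r p).2.2 / ((p.1 : ℝ) ^ 3 * p.2))‖

lemma two_pow_omega_le (δ : ℝ) (hδ : 0 < δ) : ∃ C : ℝ, 1 ≤ C ∧ ∀ y : ℕ, 1 ≤ y →
    (2 : ℝ) ^ y.primeFactors.card ≤ C * (y : ℝ) ^ δ := by
  obtain ⟨C, hC, h⟩ := Pool.Agent.helper47.RA.card_divisors_le δ hδ
  refine ⟨C, hC, fun y hy => le_trans ?_ (h y hy)⟩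
  have h1 : 2 ^ y.primeFactors.card ≤ y.divisors.card := by
    rw [Nat.card_divisors (by omega), ← Finset.prod_const]
    refine Finset.prod_le_prod' fun p hp => ?_
    have hpp := Nat.prime_of_mem_primeFactors hp
    have := (hpp.factorization_pos_of_dvd (by omega) (Nat.dvd_of_mem_primeFactors hp))
    omega
  exact_mod_cast h1

theorem one_range (ε : ℝ) (hε : 0 < ε) : ∃ C : ℝ, 1 ≤ C ∧ ∀ (T N K M G d P : ℕ)
    (r : ℕ × ℕ → ℤ × ℤ × ℤ), 1 ≤ K → K ≤ N → N ≤ T → M * G = 4 * T ^ 2 * N ^ 2 → N ^ 2 ≤ M →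
    M ≤ T ^ 2 → 1 ≤ d → 1 ≤ P →
    (∀ p : ℕ × ℕ, 1 ≤ p.1 → 1 ≤ p.2 → Nat.Coprime p.1 p.2 →
      Res p.1 p.2 (r p).1 (r p).2.1 (r p).2.2) →
    ∑ h ∈ (Ico P (2 * P)).filter (fun h => 128 * T ^ 2 * (d * h) ≤ N ^ 3 * K),
      ∑ p ∈ (pairs N K (yy d)).filter (fun p => Nat.Coprime h (5 * (p.1 * p.2))),
        EE M G r (d * h) p ≤
      C * (T : ℝ) ^ ε * ((T : ℝ) ^ 2 * N ^ 3 * K / (yy d : ℝ)) := by
  classical
  set δ := ε / 8 with hδdef
  have hδ : 0 < δ := by positivity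
  obtain ⟨C1, hC1, hW⟩ := weyl_bound
  obtain ⟨C2, hC2, hO⟩ := two_pow_omega_le δ hδ
  obtain ⟨C3, hC3, hD⟩ := dual_count δ hδ
  set c4 : ℝ := (1 + 1 / δ) ^ 2 * 4 ^ δ with hc4
  have hc40 : 0 < c4 := by positivity
  set CC : ℝ := C2 * C1 * c4 * 4 * (C2 + C3) * 4 + 1 with hCC
  have hCC1 : 1 ≤ CC := by
    rw [hCC]
    have : 0 ≤ C2 * C1 * c4 * 4 * (C2 + C3) * 4 := by positivity
    linarith
  refine ⟨CC, hCC1, ?_⟩
  intro T N K M G d P r hK hKN hNT hMG hM hMT hd hP hr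
  have hN : 1 ≤ N := hK.trans hKN
  have hT : 1 ≤ T := hN.trans hNT
  have hM1 : 1 ≤ M := le_trans (Nat.one_le_pow _ _ hN) hM
  have hG1 : 1 ≤ G := by
    rcases Nat.eq_zero_or_pos G with h | h
    · subst h
      have : 0 < 4 * T ^ 2 * N ^ 2 := by positivity
      omega
    · exact h
  have hTR : (1 : ℝ) ≤ T := by exact_mod_cast hT
  have hy := yy_pos d
  have hyR : (1 : ℝ) ≤ yy d := by exact_mod_cast hy
  have hKR : (1 : ℝ) ≤ K := by exact_mod_cast hK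
  have hNR : (1 : ℝ) ≤ N := by exact_mod_cast hN
  have hPR : (1 : ℝ) ≤ P := by exact_mod_cast hP
  set y := yy d with hyd
  set HS := (Ico P (2 * P)).filter (fun h => 128 * T ^ 2 * (d * h) ≤ N ^ 3 * K) with hHS
  set PS : ℕ → Finset (ℕ × ℕ) :=
    fun h => (pairs N K y).filter (fun p => Nat.Coprime h (5 * (p.1 * p.2))) with hPS
  rcases HS.eq_empty_or_nonempty with hemp | ⟨h0, hh0⟩
  · rw [hemp, Finset.sum_empty]
    positivity
  -- size of `d P`
  have hdP : 128 * T ^ 2 * (d * P) ≤ N ^ 3 * K := by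
    rw [hHS, mem_filter, mem_Ico] at hh0
    exact (Nat.mul_le_mul_left _ (Nat.mul_le_mul_left _ hh0.1.1)).trans hh0.2
  have hNT2 : N ^ 3 * K ≤ T ^ 4 := by
    calc N ^ 3 * K ≤ T ^ 3 * T := Nat.mul_le_mul (Nat.pow_le_pow_left hNT 3) (hKN.trans hNT)
      _ = T ^ 4 := by ring
  have hdPT : d * P ≤ T ^ 2 := by
    have h1 : T ^ 2 * (d * P) ≤ T ^ 2 * T ^ 2 := by
      calc T ^ 2 * (d * P) ≤ 128 * T ^ 2 * (d * P) := by nlinarith [Nat.zero_le (T ^ 2 * (d * P))]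
        _ ≤ T ^ 4 := hdP.trans hNT2
        _ = T ^ 2 * T ^ 2 := by ring
    exact Nat.le_of_mul_le_mul_left h1 (by positivity)
  have hyd2 : y ≤ d := Nat.le_of_dvd hd (yy_dvd d)
  have hyT : y ≤ T ^ 2 := by nlinarith
  have hPT : P ≤ T ^ 4 := by
    have h1 : P ≤ T ^ 2 := by nlinarith
    have h2 : T ^ 2 ≤ T ^ 4 := Nat.pow_le_pow_right hT (by norm_num)
    omega
  -- Cauchy-Schwarz
  have hcs : (∑ h ∈ HS, ∑ p ∈ PS h, EE M G r (d * h) p) ^ 2 ≤
      ((P : ℝ) * (pairs N K y).card) * ∑ h ∈ HS, ∑ p ∈ PS h, (EE M G r (d * h) p) ^ 2 := by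
    rw [Finset.sum_sigma' HS PS, Finset.sum_sigma' HS PS]
    refine (sq_sum_le_card_mul_sum_sq).trans ?_
    refine mul_le_mul_of_nonneg_right ?_ (Finset.sum_nonneg fun _ _ => sq_nonneg _)
    rw [Finset.card_sigma]
    have h1 : ∑ h ∈ HS, (PS h).card ≤ P * (pairs N K y).card := by
      calc ∑ h ∈ HS, (PS h).card ≤ ∑ _h ∈ HS, (pairs N K y).card :=
            Finset.sum_le_sum fun h _ => Finset.card_filter_le _ _
        _ = HS.card * (pairs N K y).card := by rw [Finset.sum_const, smul_eq_mul]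
        _ ≤ P * (pairs N K y).card := by
            refine Nat.mul_le_mul_right _ ?_
            refine (Finset.card_filter_le _ _).trans ?_
            rw [Nat.card_Ico]; omega
    exact_mod_cast h1
  -- Weyl
  have hsq : ∑ h ∈ HS, ∑ p ∈ PS h, (EE M G r (d * h) p) ^ 2 ≤
      (C1 * (c4 * (T : ℝ) ^ (4 * δ)) * (4 * (T : ℝ) ^ 2 * N ^ 2)) *
        ((P : ℝ) * (pairs N K y).card + (dualSet N K y P).card) := by
    have hns := near_sum (T ^ 2) N K M G d P y hK hKN hMG hM hMT hd hP r hr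
    have hlog := logs_le δ hδ T N M G hM hMT hMG hM1 hG1
    have h1 : ∀ h ∈ HS, ∀ p ∈ PS h, (EE M G r (d * h) p) ^ 2 ≤
        (C1 * (c4 * (T : ℝ) ^ (4 * δ)) * (4 * (T : ℝ) ^ 2 * N ^ 2)) *
          ((nearPts M G ((d * h : ℕ) * (r p).1 / ((p.1 : ℝ) ^ 3 * p.2))
          ((d * h : ℕ) * (r p).2.1 / ((p.1 : ℝ) ^ 3 * p.2))
          ((d * h : ℕ) * (r p).2.2 / ((p.1 : ℝ) ^ 3 * p.2))).card : ℝ) := by
      intro h _ p _
      refine (hW M G hM1 hG1 _ _ _).trans ?_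
      refine mul_le_mul_of_nonneg_right ?_ (Nat.cast_nonneg _)
      have e1 : C1 * (1 + Real.log M) * (1 + Real.log G) * M * G =
          C1 * ((1 + Real.log M) * (1 + Real.log G)) * (M * G) := by ring
      have e2 : (M : ℝ) * G = 4 * (T : ℝ) ^ 2 * N ^ 2 := by exact_mod_cast hMG
      rw [e1, e2]
      exact mul_le_mul_of_nonneg_right (mul_le_mul_of_nonneg_left hlog hC1) (by positivity)
    calc ∑ h ∈ HS, ∑ p ∈ PS h, (EE M G r (d * h) p) ^ 2
        ≤ ∑ h ∈ HS, ∑ p ∈ PS h, (C1 * (c4 * (T : ℝ) ^ (4 * δ)) * (4 * (T : ℝ) ^ 2 * N ^ 2)) *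
          ((nearPts M G ((d * h : ℕ) * (r p).1 / ((p.1 : ℝ) ^ 3 * p.2))
          ((d * h : ℕ) * (r p).2.1 / ((p.1 : ℝ) ^ 3 * p.2))
          ((d * h : ℕ) * (r p).2.2 / ((p.1 : ℝ) ^ 3 * p.2))).card : ℝ) :=
          Finset.sum_le_sum fun h hh => Finset.sum_le_sum fun p hp => h1 h hh p hp
      _ = (C1 * (c4 * (T : ℝ) ^ (4 * δ)) * (4 * (T : ℝ) ^ 2 * N ^ 2)) *
          ((∑ h ∈ HS, ∑ p ∈ PS h, (nearPts M G ((d * h : ℕ) * (r p).1 / ((p.1 : ℝ) ^ 3 * p.2))
          ((d * h : ℕ) * (r p).2.1 / ((p.1 : ℝ) ^ 3 * p.2))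
          ((d * h : ℕ) * (r p).2.2 / ((p.1 : ℝ) ^ 3 * p.2))).card : ℕ) : ℝ) := by
          rw [Nat.cast_sum, Finset.mul_sum]
          refine Finset.sum_congr rfl fun h _ => ?_
          rw [Nat.cast_sum, Finset.mul_sum]
      _ ≤ _ := by
          refine mul_le_mul_of_nonneg_left ?_ (by positivity)
          exact_mod_cast hns
  -- the number of pairs
  have hpairs : ((pairs N K y).card : ℝ) ≤ C2 * (T : ℝ) ^ (2 * δ) * (N * K / y) := by
    refine (pairs_card N K y (yy_squarefree d)).trans ?_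
    refine mul_le_mul_of_nonneg_right ((hO y hy).trans ?_) (by positivity)
    refine mul_le_mul_of_nonneg_left ?_ (by linarith)
    have hyT' : (y : ℝ) ≤ (T : ℝ) ^ 2 := by exact_mod_cast hyT
    calc (y : ℝ) ^ δ ≤ ((T : ℝ) ^ 2) ^ δ := Real.rpow_le_rpow (by linarith) hyT' hδ.le
      _ = (T : ℝ) ^ (2 * δ) := by
        rw [← Real.rpow_natCast, ← Real.rpow_mul (by linarith)]; norm_num
  have hdual := hD T N K y P hK hKN hNT hP hPT (yy_squarefree d)
  -- combine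
  set t : ℝ := (T : ℝ) ^ (2 * δ) with ht
  have ht1 : 1 ≤ t := Real.one_le_rpow hTR (by positivity)
  have htδ : (T : ℝ) ^ δ ≤ t := Real.rpow_le_rpow_of_exponent_le hTR (by linarith)
  have ht2 : (T : ℝ) ^ (4 * δ) = t ^ 2 := by
    rw [ht, sq, ← Real.rpow_add (by linarith)]; ring_nf
  have ht4 : (T : ℝ) ^ ε = t ^ 4 := by
    rw [ht, ← Real.rpow_natCast, ← Real.rpow_mul (by linarith)]
    congr 1
    rw [hδdef]; push_cast; ring
  set R : ℝ := (P : ℝ) * (N * K / y) +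
    ((K : ℝ) ^ 2 * N ^ 2 * (1 + K * N / (y * P)) + (N : ℝ) ^ 3 * K / y) with hR
  have hR0 : 0 ≤ R := by positivity
  have b1 : (P : ℝ) * (pairs N K y).card + (dualSet N K y P).card ≤ (C2 + C3) * t * R := by
    have h1 : (P : ℝ) * (pairs N K y).card ≤ C2 * t * ((P : ℝ) * (N * K / y)) := by
      calc (P : ℝ) * (pairs N K y).card ≤ P * (C2 * t * (N * K / y)) :=
            mul_le_mul_of_nonneg_left hpairs (by positivity)
        _ = _ := by ring
    have h2 : ((dualSet N K y P).card : ℝ) ≤ C3 * t *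
        ((K : ℝ) ^ 2 * N ^ 2 * (1 + K * N / (y * P)) + (N : ℝ) ^ 3 * K / y) := by
      refine hdual.trans (mul_le_mul_of_nonneg_right ?_ (by positivity))
      exact mul_le_mul_of_nonneg_left htδ (by linarith)
    have h3 : C2 * t * ((P : ℝ) * (N * K / y)) ≤ C2 * t * R :=
      mul_le_mul_of_nonneg_left (by rw [hR]; have : (0 : ℝ) ≤ (K : ℝ) ^ 2 * N ^ 2 *
        (1 + K * N / (y * P)) + (N : ℝ) ^ 3 * K / y := by positivity
                                    linarith) (by positivity)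
    have h4 : C3 * t * ((K : ℝ) ^ 2 * N ^ 2 * (1 + K * N / (y * P)) + (N : ℝ) ^ 3 * K / y) ≤
        C3 * t * R :=
      mul_le_mul_of_nonneg_left (by rw [hR]; have : (0 : ℝ) ≤ (P : ℝ) * (N * K / y) := by positivity
                                    linarith) (by positivity)
    calc (P : ℝ) * (pairs N K y).card + (dualSet N K y P).card ≤ C2 * t * R + C3 * t * R := by
          linarith
      _ = _ := by ring
  have hcore := ineq_core P y N K ((T : ℝ) ^ 2) hPR hyR hKR (by exact_mod_cast hKN)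
    (by exact_mod_cast Nat.pow_le_pow_left hNT 2) (by
      have h1 : 128 * T ^ 2 * (P * y) ≤ N ^ 3 * K := by
        refine le_trans (Nat.mul_le_mul_left _ ?_) hdP
        rw [mul_comm d P]
        exact Nat.mul_le_mul_left _ hyd2
      exact_mod_cast h1)
  rw [← hR] at hcore
  set V : ℝ := (T : ℝ) ^ 2 * N ^ 3 * K / (y : ℝ) with hV
  have hV0 : 0 ≤ V := by positivity
  have hfin : (∑ h ∈ HS, ∑ p ∈ PS h, EE M G r (d * h) p) ^ 2 ≤ (CC * t ^ 4 * V) ^ 2 := by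
    calc (∑ h ∈ HS, ∑ p ∈ PS h, EE M G r (d * h) p) ^ 2
        ≤ ((P : ℝ) * (pairs N K y).card) * ∑ h ∈ HS, ∑ p ∈ PS h, (EE M G r (d * h) p) ^ 2 := hcs
      _ ≤ (P * (C2 * t * (N * K / y))) *
          ((C1 * (c4 * t ^ 2) * (4 * (T : ℝ) ^ 2 * N ^ 2)) * ((C2 + C3) * t * R)) := by
          refine mul_le_mul (mul_le_mul_of_nonneg_left hpairs (by positivity)) ?_
            (Finset.sum_nonneg fun _ _ => Finset.sum_nonneg fun _ _ => sq_nonneg _) (by positivity)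
          rw [ht2] at hsq
          exact hsq.trans (mul_le_mul_of_nonneg_left b1 (by positivity))
      _ = (C2 * C1 * c4 * 4 * (C2 + C3)) * t ^ 4 *
          ((P * (N * K / y)) * ((T : ℝ) ^ 2 * N ^ 2) * R) := by ring
      _ ≤ (C2 * C1 * c4 * 4 * (C2 + C3)) * t ^ 4 * (4 * V ^ 2) := by
          refine mul_le_mul_of_nonneg_left hcore (by positivity)
      _ = (C2 * C1 * c4 * 4 * (C2 + C3) * 4) * (t ^ 4 * V ^ 2) := by ring
      _ ≤ CC * (t ^ 4 * V ^ 2) := by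
          refine mul_le_mul_of_nonneg_right ?_ (by positivity)
          rw [hCC]; linarith
      _ ≤ (CC * CC) * ((t ^ 4 * t ^ 4) * V ^ 2) := by
          refine mul_le_mul ?_ ?_ (by positivity) (by positivity)
          · nlinarith
          · refine mul_le_mul_of_nonneg_right ?_ (by positivity)
            have : 1 ≤ t ^ 4 := one_le_pow₀ ht1
            nlinarith
      _ = _ := by ring
  rw [ht4]
  exact abs_le_of_sq_le_sq' hfin (by positivity) |>.2

end Pool.Agent.helper3.FT
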